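import Pool.Agent.H92.Exact
import Pool.Agent.H29.Final

/-!
# An element of `ℓ¹(ℚ⁺)` which is not a product

The final assembly of `Pool.Agent.H29.Final` (`exists_bad`) for all bounds at once: the conditions on the
sequence `t` for a bound `B` are only needed from a level depending on `B` on.
-/

set_option autoImplicit false

open MeasureTheory Filter Topology Set

namespace Pool.Agent.H92

theorem Dat.mono {B B' : ℝ} {t : ℕ → ℚ} {g h : ℚ → ℂ} (D : Dat B t g h) (hB : B ≤ B') :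
    Dat B' t g h :=
  ⟨D.tpos, D.tanti, D.g0, D.h0, D.gsum, D.hsum, D.gB.trans hB, D.hB.trans hB, D.prod⟩

/-- the bounds along the levels from `k₀` on are contradictory -/
theorem levels_absurd {B : ℝ} (hB : 0 < B) {t : ℕ → ℚ} {g h : ℚ → ℂ} (D : Dat B t g h)
    (thalf : ∀ i, 2 * t (i + 1) ≤ t i) {k₀ : ℕ} {C : ℝ} (hC : ∀ k, II B (k₀ + k) t h ≤ C) :
    False := by
  have tbd : ∀ i, t i ≤ t 0 * (1 / 2) ^ i := by
    intro i
    induction i with
    | zero => simp
    | succ i ih =>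
      have := thalf i
      rw [pow_succ]
      linarith
  have hp0 : Tendsto (fun k => (t (6 * (k₀ + k) + 1) : ℝ)) atTop (𝓝 0) := by
    have h1 : Tendsto (fun i : ℕ => (t 0 : ℝ) * ((1 / 2 : ℝ)) ^ i) atTop (𝓝 ((t 0 : ℝ) * 0)) :=
      (tendsto_pow_atTop_nhds_zero_of_lt_one (by norm_num) (by norm_num)).const_mul _
    rw [mul_zero] at h1
    have h2 : Tendsto (fun k : ℕ => 6 * (k₀ + k) + 1) atTop atTop :=
      tendsto_atTop_mono (fun k => by simp only [id]; omega) tendsto_id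
    refine squeeze_zero (fun k => by exact_mod_cast (D.tpos _).le) (fun k => ?_) (h1.comp h2)
    simp only [Function.comp_apply]
    have h3 := tbd (6 * (k₀ + k) + 1)
    have h4 : ((t (6 * (k₀ + k) + 1) : ℚ) : ℝ) ≤
        ((t 0 * (1 / 2 : ℚ) ^ (6 * (k₀ + k) + 1) : ℚ) : ℝ) := by
      exact_mod_cast h3
    simpa using h4
  have hn := rd_norm_tendsto D.h0 D.hsum (fun k => D.tpos (6 * (k₀ + k) + 1)) hp0
  have hk0 : Tendsto (fun k => kap B (k₀ + k)) atTop (𝓝 0) := by
    have h1 : Tendsto (fun k : ℕ => (5 / (2 * B)) * ((1 / 10 : ℝ)) ^ k) atTop (𝓝 ((5 / (2 * B)) * 0)) :=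
      (tendsto_pow_atTop_nhds_zero_of_lt_one (by norm_num) (by norm_num)).const_mul _
    rw [mul_zero] at h1
    have h1' : Tendsto (fun k : ℕ => kap B k) atTop (𝓝 0) := by
      refine h1.congr fun k => ?_
      unfold kap
      rw [cf_six_mul, one_div, inv_pow]
      field_simp
    have h2 : Tendsto (fun k : ℕ => k₀ + k) atTop atTop :=
      tendsto_atTop_mono (fun k => by simp only [id]; omega) tendsto_id
    exact h1'.comp h2
  have hm := hn.max hk0
  rw [max_self] at hm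
  have hpos0 : 0 ≤ C := by
    refine le_trans ?_ (hC 0)
    unfold II J3
    exact integral_nonneg fun χ => inv_nonneg.2 (le_max_of_le_left (norm_nonneg _))
  have hpos : (0 : ℝ) < (C + 1)⁻¹ := by positivity
  obtain ⟨k, hk⟩ := (hm.eventually_lt_const hpos).exists
  have h1 := II_lower hB (k := k₀ + k) D
  have h2 : 0 < max (∑' x, ‖rd (t (6 * (k₀ + k) + 1)) h x‖) (kap B (k₀ + k)) :=
    lt_max_of_lt_right (kap_pos hB (k₀ + k))
  have h3 : C + 1 < (max (∑' x, ‖rd (t (6 * (k₀ + k) + 1)) h x‖) (kap B (k₀ + k)))⁻¹ := by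
    rw [lt_inv_comm₀ (by positivity) h2]
    exact hk
  linarith [hC k]

/-- There is one growth condition on `t` which excludes all factorisations. -/
theorem no_dat (hDi : DichStmt) (hDe : DescStmt) : ∃ S : ℕ → ℕ, (∀ i, 2 ≤ S i) ∧
    ∀ t : ℕ → ℚ, (∀ i, (S i : ℚ) * t (i + 1) ≤ t i) → ∀ (B : ℝ) (g h : ℚ → ℂ),
      ¬ Dat B t g h := by
  have hpos : ∀ b : ℕ, (0 : ℝ) < ((b + 1 : ℕ) : ℝ) := fun b => by positivity
  choose R1 hR1 using fun b : ℕ => key_dich hDi (hpos b)
  choose R2 hR2 using fun b : ℕ => key_step hDi hDe (hpos b)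
  refine ⟨fun i => 2 + ∑ b ∈ Finset.range (i + 1), ∑ k ∈ Finset.range (i + 2), (R1 b k + R2 b k),
    fun i => Nat.le_add_right _ _, ?_⟩
  intro t ht B g h D
  obtain ⟨b, hb⟩ := exists_nat_ge B
  have D' : Dat ((b + 1 : ℕ) : ℝ) t g h := D.mono (by push_cast; linarith)
  have hSk : ∀ k i, b + 1 ≤ k → 6 * k ≤ i + 1 →
      R1 b k ≤ 2 + ∑ b ∈ Finset.range (i + 1), ∑ k ∈ Finset.range (i + 2), (R1 b k + R2 b k) ∧
      R2 b k ≤ 2 + ∑ b ∈ Finset.range (i + 1), ∑ k ∈ Finset.range (i + 2), (R1 b k + R2 b k) := by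
    intro k i hbk hk
    have hmem : k ∈ Finset.range (i + 2) := Finset.mem_range.2 (by omega)
    have h1 := Finset.single_le_sum (f := fun k => R1 b k + R2 b k) (fun _ _ => Nat.zero_le _) hmem
    have hmem2 : b ∈ Finset.range (i + 1) := Finset.mem_range.2 (by omega)
    have h2 := Finset.single_le_sum
      (f := fun b => ∑ k ∈ Finset.range (i + 2), (R1 b k + R2 b k)) (fun _ _ => Nat.zero_le _) hmem2
    constructor <;> omega
  have hsep : ∀ k, b + 1 ≤ k → Sep k (R1 b k) t ∧ Sep k (R2 b k) t := by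
    intro k hbk
    constructor
    · intro i hi
      refine le_trans ?_ (ht i)
      refine mul_le_mul_of_nonneg_right ?_ (D.tpos _).le
      exact_mod_cast (hSk k i hbk hi).1
    · intro i hi
      refine le_trans ?_ (ht i)
      refine mul_le_mul_of_nonneg_right ?_ (D.tpos _).le
      exact_mod_cast (hSk k i hbk hi).2
  have thalf : ∀ i, 2 * t (i + 1) ≤ t i := by
    intro i
    refine le_trans ?_ (ht i)
    refine mul_le_mul_of_nonneg_right ?_ (D.tpos _).le
    push_cast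
    have : (0 : ℚ) ≤ ∑ b ∈ Finset.range (i + 1), ∑ k ∈ Finset.range (i + 2),
        ((R1 b k : ℚ) + (R2 b k : ℚ)) :=
      Finset.sum_nonneg fun _ _ => Finset.sum_nonneg fun _ _ => by positivity
    linarith
  have main : ∀ g h, Dat ((b + 1 : ℕ) : ℝ) t g h → QQ ((b + 1 : ℕ) : ℝ) (b + 1) t h → False := by
    intro g h D hQ
    have hall : ∀ k, QQ ((b + 1 : ℕ) : ℝ) (b + 1 + k) t h ∧
        II ((b + 1 : ℕ) : ℝ) (b + 1 + k) t h ≤
          II ((b + 1 : ℕ) : ℝ) (b + 1) t h + (2 - 2 * (1 / 2) ^ k) := by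
      intro k
      induction k with
      | zero => exact ⟨hQ, by norm_num⟩
      | succ k ih =>
        obtain ⟨h1, h2⟩ := hR2 b (b + 1 + k) t g h D (hsep (b + 1 + k) (by omega)).2 ih.1
        refine ⟨h1, ?_⟩
        have h3 : (1 / 2 : ℝ) ^ (k + 1) = (1 / 2) ^ k * (1 / 2) := pow_succ _ _
        have h4 : (1 / 2 : ℝ) ^ (b + 1 + k) ≤ (1 / 2) ^ k :=
          pow_le_pow_of_le_one (by norm_num) (by norm_num) (by omega)
        have h5 : b + 1 + (k + 1) = b + 1 + k + 1 := rfl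
        rw [h3, h5]
        linarith [ih.2]
    refine levels_absurd (hpos b) D thalf (k₀ := b + 1)
      (C := II ((b + 1 : ℕ) : ℝ) (b + 1) t h + 2) fun k => ?_
    have h1 : (0 : ℝ) < (1 / 2) ^ k := by positivity
    linarith [(hall k).2]
  rcases hR1 b (b + 1) t g h D' (hsep (b + 1) le_rfl).1 with h1 | h1
  · exact main h g D'.symm h1
  · exact main g h D' h1

/-- The same, with the two statements about exact data proved. -/
theorem no_factor : ∃ S : ℕ → ℕ, (∀ i, 2 ≤ S i) ∧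
    ∀ t : ℕ → ℚ, (∀ i, 0 < t i) → (∀ i, (S i : ℚ) * t (i + 1) ≤ t i) → ∀ g h : ℚ → ℂ,
      (∀ q ≤ 0, g q = 0) → (∀ q ≤ 0, h q = 0) → (Summable fun x => ‖g x‖) →
      (Summable fun x => ‖h x‖) → conv g h ≠ atoms t := by
  obtain ⟨S, hS2, hS⟩ := no_dat (fun E => exact_dich E) (fun E hk hh => exact_descent E hk hh)
  refine ⟨S, hS2, ?_⟩
  intro t tpos ht g h g0 h0 gs hs hprod
  have tanti : StrictAnti t := by
    refine strictAnti_nat_of_succ_lt fun i => ?_
    have h1 : (2 : ℚ) ≤ S i := by exact_mod_cast hS2 i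
    have h2 := ht i
    have h3 := tpos (i + 1)
    nlinarith
  exact hS t ht (max (∑' x, ‖g x‖) (∑' x, ‖h x‖)) g h
    ⟨tpos, tanti, g0, h0, gs, hs, le_max_left _ _, le_max_right _ _, hprod⟩

end Pool.Agent.H92
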