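import Pool.Agent.H52.FAC.Bad

/-!
# An element of `ℓ¹(ℚ⁺)` which is not a product, with explicit positive coefficients
-/

set_option autoImplicit false

namespace Pool.Agent.H52.FAC

open Pool.Agent.H92

/-- the coefficients `(5, 1, 1, 1, 1) / 10 ^ (m + 1)` -/
noncomputable def cc (j : ℕ) : ℝ := (if j % 5 = 0 then 5 else 1) / 10 ^ (j / 5 + 1)

/-- the sequence with the separating terms put in -/
noncomputable def ins (S : ℕ → ℕ) (s : ℕ → ℚ) (i : ℕ) : ℚ :=
  if i % 6 = 0 then s (5 * (i / 6))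
  else if i % 6 = 1 then s (5 * (i / 6)) / S (6 * (i / 6))
  else s (5 * (i / 6) + (i % 6 - 1))

/-- the index in `ins` of the term `j` -/
def pos (j : ℕ) : ℕ := if j % 5 = 0 then 6 * (j / 5) else 6 * (j / 5) + (j % 5 + 1)

theorem ins_0 (S : ℕ → ℕ) (s : ℕ → ℚ) (m : ℕ) : ins S s (6 * m) = s (5 * m) := by
  unfold ins
  rw [if_pos (by omega)]
  congr 1
  omega

theorem ins_1 (S : ℕ → ℕ) (s : ℕ → ℚ) (m : ℕ) :
    ins S s (6 * m + 1) = s (5 * m) / S (6 * m) := by
  unfold ins
  rw [if_neg (by omega), if_pos (by omega)]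
  have : (6 * m + 1) / 6 = m := by omega
  rw [this]

theorem ins_r (S : ℕ → ℕ) (s : ℕ → ℚ) (m r : ℕ) (hr : 2 ≤ r) (hr6 : r < 6) :
    ins S s (6 * m + r) = s (5 * m + (r - 1)) := by
  unfold ins
  rw [if_neg (by omega), if_neg (by omega)]
  congr 1
  omega

theorem ins_pos_idx (S : ℕ → ℕ) (s : ℕ → ℚ) (j : ℕ) : ins S s (pos j) = s j := by
  obtain ⟨m, r, hr, rfl⟩ : ∃ m r, r < 5 ∧ j = 5 * m + r :=
    ⟨j / 5, j % 5, Nat.mod_lt _ (by omega), by omega⟩
  unfold pos
  have h1 : (5 * m + r) % 5 = r := by omega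
  have h2 : (5 * m + r) / 5 = m := by omega
  rw [h1, h2]
  split_ifs with h
  · subst h
    rw [ins_0, add_zero]
  · rw [ins_r S s m (r + 1) (by omega) (by omega)]
    rfl

theorem cf_pos_idx (j : ℕ) : cf (pos j) = 10 * cc j := by
  obtain ⟨m, r, hr, rfl⟩ : ∃ m r, r < 5 ∧ j = 5 * m + r :=
    ⟨j / 5, j % 5, Nat.mod_lt _ (by omega), by omega⟩
  unfold pos cc cf
  have h1 : (5 * m + r) % 5 = r := by omega
  have h2 : (5 * m + r) / 5 = m := by omega
  rw [h1, h2]
  by_cases h : r = 0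
  · subst h
    rw [if_pos rfl, if_pos (by omega), if_pos rfl]
    have h3 : 6 * m / 6 = m := by omega
    rw [h3, pow_succ]
    field_simp
  · rw [if_neg h, if_neg (by omega), if_neg (by omega), if_neg h]
    have h3 : (6 * m + (r + 1)) / 6 = m := by omega
    rw [h3, pow_succ]
    field_simp

/-- the growth condition for the shorter sequence -/
def SS (S : ℕ → ℕ) (j : ℕ) : ℕ :=
  if j % 5 = 0 then S (6 * (j / 5)) * S (6 * (j / 5) + 1) else S (6 * (j / 5) + (j % 5 + 1))

theorem ins_sep {S : ℕ → ℕ} (hS : ∀ i, 2 ≤ S i) {s : ℕ → ℚ}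
    (h : ∀ j, (SS S j : ℚ) * s (j + 1) ≤ s j) (i : ℕ) :
    (S i : ℚ) * ins S s (i + 1) ≤ ins S s i := by
  obtain ⟨m, r, hr, rfl⟩ : ∃ m r, r < 6 ∧ i = 6 * m + r :=
    ⟨i / 6, i % 6, Nat.mod_lt _ (by omega), by omega⟩
  have hS0 : ∀ i, (0 : ℚ) < S i := fun i => by
    have := hS i
    exact_mod_cast (by omega : 0 < S i)
  by_cases h0 : r = 0
  · subst h0
    rw [add_zero, ins_1, ins_0, mul_div_cancel₀ _ (hS0 _).ne']
  · by_cases h1 : r = 1
    · subst h1
      rw [ins_1, show 6 * m + 1 + 1 = 6 * m + 2 from rfl, ins_r S s m 2 le_rfl (by omega)]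
      have h2 := h (5 * m)
      have h3 : SS S (5 * m) = S (6 * m) * S (6 * m + 1) := by
        unfold SS
        rw [if_pos (by omega)]
        have : 5 * m / 5 = m := by omega
        rw [this]
      rw [h3] at h2
      rw [le_div_iff₀ (hS0 _)]
      push_cast at h2
      have h4 : 5 * m + (2 - 1) = 5 * m + 1 := rfl
      rw [h4]
      linarith
    · have h2 := h (5 * m + (r - 1))
      have h3 : SS S (5 * m + (r - 1)) = S (6 * m + r) := by
        unfold SS
        have e1 : (5 * m + (r - 1)) % 5 = r - 1 := by omega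
        have e2 : (5 * m + (r - 1)) / 5 = m := by omega
        rw [e1, e2, if_neg (by omega)]
        congr 1
        omega
      rw [h3] at h2
      rw [ins_r S s m r (by omega) hr]
      by_cases h5 : r = 5
      · subst h5
        have e3 : 6 * m + 5 + 1 = 6 * (m + 1) := by ring
        rw [e3, ins_0]
        have e4 : 5 * (m + 1) = 5 * m + (5 - 1) + 1 := by omega
        rw [e4]
        exact h2
      · rw [show 6 * m + r + 1 = 6 * m + (r + 1) from rfl, ins_r S s m (r + 1) (by omega) (by omega)]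
        have e4 : 5 * m + (r + 1 - 1) = 5 * m + (r - 1) + 1 := by omega
        rw [e4]
        exact h2

theorem ins_pos {S : ℕ → ℕ} (hS : ∀ i, 2 ≤ S i) {s : ℕ → ℚ} (hs : ∀ j, 0 < s j) (i : ℕ) :
    0 < ins S s i := by
  have hS0 : ∀ i, (0 : ℚ) < S i := fun i => by
    have := hS i
    exact_mod_cast (by omega : 0 < S i)
  unfold ins
  split_ifs
  · exact hs _
  · exact div_pos (hs _) (hS0 _)
  · exact hs _

/-- every term of `ins` with a nonzero coefficient is a term of the sequence -/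
theorem ins_mem {S : ℕ → ℕ} {s : ℕ → ℚ} (i : ℕ) (hi : cf i ≠ 0) : ∃ j, s j = ins S s i := by
  obtain ⟨m, r, hr, rfl⟩ : ∃ m r, r < 6 ∧ i = 6 * m + r :=
    ⟨i / 6, i % 6, Nat.mod_lt _ (by omega), by omega⟩
  by_cases h0 : r = 0
  · subst h0
    exact ⟨5 * m, (ins_0 S s m).symm⟩
  · by_cases h1 : r = 1
    · subst h1
      exfalso
      refine hi ?_
      unfold cf
      rw [if_neg (by omega), if_pos (by omega), zero_div]
    · exact ⟨_, (ins_r S s m r (by omega) hr).symm⟩

theorem main : ∃ S : ℕ → ℕ, ∀ s : ℕ → ℚ, (∀ j, 0 < s j) →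
    (∀ j, (S j : ℚ) * s (j + 1) ≤ s j) → ∃ f : ℚ → ℂ,
      (∀ j, f (s j) = (cc j : ℂ)) ∧ (∀ q, (∀ j, s j ≠ q) → f q = 0) ∧
      (∀ q ≤ 0, f q = 0) ∧ (Summable fun q => ‖f q‖) ∧ ∑' q, ‖f q‖ = 1 ∧
      ∀ g h : ℚ → ℂ, (∀ q ≤ 0, g q = 0) → (∀ q ≤ 0, h q = 0) → (Summable fun q => ‖g q‖) →
        (Summable fun q => ‖h q‖) → ¬ ∀ q, f q = ∑' r, g r * h (q - r) := by
  obtain ⟨S, hS2, hS⟩ := no_factor
  refine ⟨SS S, ?_⟩
  intro s hs hsep
  have tpos := ins_pos hS2 hs
  have tsep := ins_sep hS2 hsep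
  have tanti : StrictAnti (ins S s) := by
    refine strictAnti_nat_of_succ_lt fun i => ?_
    have h1 : (2 : ℚ) ≤ S i := by exact_mod_cast hS2 i
    have h2 := tsep i
    have h3 := tpos (i + 1)
    nlinarith
  have hinj := tanti.injective
  refine ⟨fun q => atoms (ins S s) q / 10, ?_, ?_, ?_, ?_, ?_, ?_⟩
  · intro j
    have h1 : atoms (ins S s) (s j) = ((10 * cc j : ℝ) : ℂ) := by
      rw [← cf_pos_idx, ← ins_pos_idx S s j, atoms_apply hinj]
    simp only [h1]
    push_cast
    ring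
  · intro q hq
    have h1 : atoms (ins S s) q = 0 := by
      by_cases hex : ∃ i, ins S s i = q
      · obtain ⟨i, rfl⟩ := hex
        rw [atoms_apply hinj]
        by_contra hne
        obtain ⟨j, hj⟩ := ins_mem (S := S) (s := s) i (fun h => hne (by rw [h, Complex.ofReal_zero]))
        exact hq j hj
      · exact atoms_of_not hex
    simp only [h1, zero_div]
  · intro q hq
    simp only [atoms_zero_of_lt tpos hq, zero_div]
  · simp_rw [norm_div]
    exact (summable_atoms hinj).div_const _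
  · simp_rw [norm_div]
    rw [tsum_div_const, tsum_atoms hinj]
    norm_num
  · intro g h g0 h0 gs hh hprod
    refine hS (ins S s) tpos tsep (fun q => 10 * g q) h (fun q hq => by simp [g0 q hq]) h0 ?_ hh ?_
    · simp_rw [norm_mul]
      exact gs.mul_left _
    · funext q
      have h1 := hprod q
      simp only at h1
      unfold conv
      have h2 : (fun r => (10 : ℂ) * g r * h (q - r)) = fun r => 10 * (g r * h (q - r)) := by
        funext r
        ring
      rw [h2, tsum_mul_left, ← h1]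
      ring

end Pool.Agent.H52.FAC
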